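import Pool.Agent.ZSR.Trivial

set_option autoImplicit false
set_option linter.unusedSectionVars false

open Finset

namespace Pool.Agent.ZSR

variable {p : ℕ} [hp : Fact p.Prime]

theorem inj3 {V : Type} {x y z : V} (h1 : x ≠ y) (h2 : x ≠ z) (h3 : y ≠ z) :
    Function.Injective ![x, y, z] := by
  intro i j hij
  fin_cases i <;> fin_cases j <;> simp_all

theorem mem3 {V : Type} {P : V → Prop} {x y z : V} (h1 : P x) (h2 : P y) (h3 : P z) :
    ∀ i, P (![x, y, z] i) := by
  intro i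
  fin_cases i <;> simp_all

/-- Removing `2p` mutual twins. -/
theorem twins_step {V Ω : Type} [DecidableEq V] [DecidableEq Ω]
    (W : Sym2 V → ZMod p) (hW : ∀ v, W s(v, v) = 0) (f : Sym2 Ω → ZMod p)
    (A Γ : Finset V) (B : Finset Ω) (hA : Q W A = 0) (hΓA : Γ ⊆ A) (hΓ : #Γ = 2 * p)
    (ε : ZMod p) (hε : ∀ x ∈ Γ, ∀ y ∈ Γ, x ≠ y → W s(x, y) = ε)
    (htw : ∀ x ∈ Γ, ∀ y ∈ Γ, ∀ v ∈ A \ Γ, W s(v, x) = W s(v, y))
    (R : ℕ) (hR : ∀ (B : Finset Ω) (f : Sym2 Ω → ZMod p), R ≤ #B →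
        ∃ c, ∃ C ⊆ B, #C = 4 * p ∧ ∀ x ∈ C, ∀ y ∈ C, x ≠ y → f s(x, y) = c)
    (hAB : #A + R ≤ #B)
    (ih : Q W (A \ Γ) = 0 → ∃ φ : V → Ω, Set.InjOn φ (A \ Γ : Finset V) ∧
      (∀ v ∈ A \ Γ, φ v ∈ B) ∧ S W f φ (A \ Γ) = 0) :
    ∃ ψ : V → Ω, Set.InjOn ψ A ∧ (∀ v ∈ A, ψ v ∈ B) ∧ S W f ψ A = 0 := by
  have hp2 := hp.out.two_le
  have hpos : 0 < #Γ := by omega
  obtain ⟨γ, hγ⟩ := Finset.card_pos.mp hpos
  have hp0 : ((p : ℕ) : ZMod p) = 0 := by simp
  have hchoose : (((2 * p).choose 2 : ℕ) : ZMod p) = 0 := by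
    have h1 : (2 * p).choose 2 = p * (2 * p - 1) := by
      rw [Nat.choose_two_right]
      have : 2 * p * (2 * p - 1) = 2 * (p * (2 * p - 1)) := by ring
      rw [this, Nat.mul_div_cancel_left _ (by norm_num)]
    rw [h1]
    push_cast
    simp
  have hQΓ : Q W Γ = 0 := by
    rw [Q_const W hW ε Γ hε, hΓ, hchoose, zero_mul]
  have hsplit : A = (A \ Γ) ∪ Γ := (Finset.sdiff_union_of_subset hΓA).symm
  have hcross : ∑ a ∈ A \ Γ, ∑ b ∈ Γ, W s(a, b) = 0 := by
    apply Finset.sum_eq_zero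
    intro a ha
    rw [Finset.sum_congr rfl (fun b hb => htw b hb γ hγ a ha), Finset.sum_const, hΓ]
    simp
  have hQA' : Q W (A \ Γ) = 0 := by
    have h1 := Q_union W (A := A \ Γ) (B := Γ) Finset.sdiff_disjoint
    rw [← hsplit, hA, hQΓ, hcross] at h1
    simpa using h1.symm
  obtain ⟨φ, h1, h2, h3⟩ := ih hQA'
  have hcΓ : #Γ ≤ #A := Finset.card_le_card hΓA
  have hcA : #(A \ Γ) = #A - 2 * p := by
    rw [Finset.card_sdiff_of_subset hΓA, hΓ]
  have hU : R ≤ #(B \ (A \ Γ).image φ) := by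
    have h4 := Finset.le_card_sdiff ((A \ Γ).image φ) B
    have h5 : #((A \ Γ).image φ) ≤ #(A \ Γ) := Finset.card_image_le
    omega
  obtain ⟨β, C, hCU, hCc, hCβ⟩ := hR _ f hU
  let g : Ω → ZMod p := fun x => ∑ a ∈ A \ Γ, W s(a, γ) * f s(φ a, x)
  obtain ⟨t1, ht1, ht1c, ht1s⟩ := ZMod.erdos_ginzburg_ziv (s := C) g (by omega)
  have hc2 : 2 * p - 1 ≤ #(C \ t1) := by
    rw [Finset.card_sdiff_of_subset ht1]
    omega
  obtain ⟨t2, ht2, ht2c, ht2s⟩ := ZMod.erdos_ginzburg_ziv (s := C \ t1) g hc2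
  have hdis : Disjoint t1 t2 := by
    rw [Finset.disjoint_left]
    intro x hx1 hx2
    exact (Finset.mem_sdiff.mp (ht2 hx2)).2 hx1
  let t := t1 ∪ t2
  have htC : t ⊆ C := Finset.union_subset ht1 (ht2.trans Finset.sdiff_subset)
  have htc : #t = 2 * p := by
    rw [Finset.card_union_of_disjoint hdis]; omega
  have hts : ∑ x ∈ t, g x = 0 := by
    rw [Finset.sum_union hdis, ht1s, ht2s, add_zero]
  obtain ⟨ψ, g1, g2, g3, g4⟩ := extend_bij (A := A \ Γ) (Γ := Γ) (B := B) (t := t) φ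
    Finset.sdiff_disjoint h1 h2 ((htC.trans hCU).trans Finset.sdiff_subset)
    (fun v hv hvt => (Finset.mem_sdiff.mp (hCU (htC hvt))).2 (Finset.mem_image_of_mem _ hv))
    (by rw [hΓ, htc])
  have hψΓ : ∀ v ∈ Γ, ψ v ∈ t := by
    intro v hv
    rw [← g4]
    exact Finset.mem_image_of_mem _ hv
  have hS : S W f ψ A = 0 := by
    have e0 : S W f ψ A = S W f ψ (A \ Γ) + S W f ψ Γ
        + ∑ a ∈ A \ Γ, ∑ b ∈ Γ, W s(a, b) * f s(ψ a, ψ b) := by
      conv_lhs => rw [hsplit]
      unfold S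
      rw [Q_union _ Finset.sdiff_disjoint]
      simp only [Sym2.map_mk]
    have e1 : S W f ψ (A \ Γ) = 0 := by
      rw [S_congr W f (fun v hv => g1 v hv), h3]
    have e2 : S W f ψ Γ = 0 := by
      have : S W f ψ Γ = Q (fun e => W e * β) Γ := by
        apply Q_congr
        intro x hx y hy
        simp only [Sym2.map_mk]
        by_cases hxy : x = y
        · subst hxy
          rw [hW]; ring
        · rw [hCβ _ (htC (hψΓ x hx)) _ (htC (hψΓ y hy))]
          intro h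
          apply hxy
          apply g2 _ _ h
          · exact Finset.mem_coe.mpr (Finset.mem_union_right _ hx)
          · exact Finset.mem_coe.mpr (Finset.mem_union_right _ hy)
      rw [this]
      have h5 : Q (fun e => W e * β) Γ = Q W Γ * β := by
        unfold Q
        rw [Finset.sum_mul]
      rw [h5, hQΓ, zero_mul]
    have e3 : ∑ a ∈ A \ Γ, ∑ b ∈ Γ, W s(a, b) * f s(ψ a, ψ b) = 0 := by
      have h5 : ∑ a ∈ A \ Γ, ∑ b ∈ Γ, W s(a, b) * f s(ψ a, ψ b)
          = ∑ a ∈ A \ Γ, ∑ b ∈ Γ, W s(a, γ) * f s(φ a, ψ b) := by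
        apply Finset.sum_congr rfl
        intro a ha
        apply Finset.sum_congr rfl
        intro b hb
        rw [htw b hb γ hγ a ha, g1 a ha]
      rw [h5, Finset.sum_comm]
      have h6 : ∑ b ∈ Γ, ∑ a ∈ A \ Γ, W s(a, γ) * f s(φ a, ψ b) = ∑ x ∈ t, g x := by
        rw [← g4, Finset.sum_image]
        apply g2.mono
        intro x hx
        exact Finset.mem_coe.mpr (Finset.mem_union_right _ hx)
      rw [h6, hts]
    rw [e0, e1, e2, e3]
    ring
  rw [← hsplit] at g2 g3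
  exact ⟨ψ, g2, g3, hS⟩

/-- The main theorem: zero-sum copies with a bounded number of extra vertices. -/
theorem main (p : ℕ) [hp : Fact p.Prime] : ∃ c : ℕ, ∀ {V Ω : Type} [DecidableEq V] [DecidableEq Ω]
    (W : Sym2 V → ZMod p) (_ : ∀ v, W s(v, v) = 0) (f : Sym2 Ω → ZMod p)
    (A : Finset V) (B : Finset Ω), Q W A = 0 → #A + c ≤ #B →
    ∃ ψ : V → Ω, Set.InjOn ψ A ∧ (∀ v ∈ A, ψ v ∈ B) ∧ S W f ψ A = 0 := by
  have hp2 := hp.out.two_le
  obtain ⟨m, hm⟩ : ∃ m, m = 2 * (p - 1) := ⟨_, rfl⟩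
  obtain ⟨L, hL⟩ : ∃ L, L = 2 * p * p ^ (3 * m) + 3 * m := ⟨_, rfl⟩
  obtain ⟨n₀, hn₀⟩ := ramsey (κ := ZMod p) L
  obtain ⟨c₁, hc₁⟩ := ramsey (κ := ZMod p) n₀
  obtain ⟨c₂, hc₂⟩ := ramsey (κ := ZMod p) (4 * p)
  refine ⟨c₁ + c₂ + 4 * m + 3 + p ^ 3, ?_⟩
  intro V Ω _ _ W hW f A B hA hAB
  obtain ⟨n, hn⟩ : ∃ n, n = #A := ⟨_, rfl⟩
  induction n using Nat.strong_induction_on generalizing A with
  | _ n ih =>
    by_cases hsmall : #A < n₀
    · -- monochromatic clique
      obtain ⟨β, C, hCB, hCc, hCβ⟩ := hc₁ B f (by omega)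
      obtain ⟨x₀, hx₀⟩ : C.Nonempty := by
        rw [← Finset.card_pos]; omega
      obtain ⟨ψ, -, g2, g3⟩ := extend_inj (A₀ := (∅ : Finset V)) (C := A) (B := C)
        (fun _ => x₀) (by simp) (by simp) (by rw [Finset.empty_union]; omega)
      rw [Finset.empty_union] at g2 g3
      refine ⟨ψ, g2, fun v hv => hCB (g3 v hv), ?_⟩
      have h1 : S W f ψ A = Q (fun e => W e * β) A := by
        apply Q_congr
        intro x hx y hy
        simp only [Sym2.map_mk]
        by_cases hxy : x = y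
        · subst hxy
          rw [hW]; ring
        · rw [hCβ _ (g3 x hx) _ (g3 y hy) (fun h => hxy (g2 hx hy h))]
      have h5 : Q (fun e => W e * β) A = Q W A * β := by
        unfold Q
        rw [Finset.sum_mul]
      rw [h1, h5, hA, zero_mul]
    · push Not at hsmall
      obtain ⟨ε, H, hHA, hHc, hHε⟩ := hn₀ A W hsmall
      rcases maxfam 3 A (fun q => q 0 ∈ H ∧ q 1 ∈ H ∧ q 2 ∉ H ∧ W s(q 0, q 2) ≠ W s(q 1, q 2)) m
        with ⟨t, ht1, ht2, ht3⟩ | ⟨R, hRc, hR⟩
      · -- many distinguished triples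
        rcases maxfam 4 B
          (fun q => f s(q 0, q 2) + f s(q 1, q 3) ≠ f s(q 0, q 3) + f s(q 1, q 2)) m
          with ⟨x, hx1, hx2, hx3⟩ | ⟨R, hRc, hR⟩
        · exact toggle_main W hW f A H hHA ε hHε B (by omega) (by omega) t ht1
            (fun i => (ht3 i).1) (fun i => (ht3 i).2.1)
            (fun i => Finset.mem_sdiff.mpr ⟨ht2 i 2, (ht3 i).2.2.1⟩)
            (fun i => (ht3 i).2.2.2) x hx1 hx2 hx3
        · have hc : #B - 4 * m ≤ #(B \ R) := by
            have := Finset.le_card_sdiff R B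
            omega
          obtain ⟨R', hR'c, a, κ, haκ⟩ := four_cycle f (B \ R) (by omega) (by
            intro q hq hqB
            have := hR q hq (fun i => (Finset.mem_sdiff.mp (hqB i)).1)
              (fun i => (Finset.mem_sdiff.mp (hqB i)).2)
            simpa using this)
          have hc' : #(B \ R) - 3 ≤ #((B \ R) \ R') := by
            have := Finset.le_card_sdiff R' (B \ R)
            omega
          obtain ⟨ψ, h1, h2, h3⟩ := ftriv W hW f A ((B \ R) \ R') a κ haκ hA (by omega)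
          exact ⟨ψ, h1, fun v hv => (Finset.mem_sdiff.mp (Finset.mem_sdiff.mp (h2 v hv)).1).1, h3⟩
      · -- twins
        have hH1 : 2 * p * p ^ (3 * m) ≤ #(H \ R) := by
          have := Finset.le_card_sdiff R H
          omega
        let τ : V → (↥R → ZMod p) := fun v s => W s(v, s.1)
        have hcardτ : Fintype.card (↥R → ZMod p) ≤ p ^ (3 * m) := by
          rw [Fintype.card_fun, ZMod.card, Fintype.card_coe]
          exact Nat.pow_le_pow_right (by omega) hRc
        have hpig : ∃ y ∈ (Finset.univ : Finset (↥R → ZMod p)), 2 * p ≤ #{v ∈ H \ R | τ v = y} := by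
          apply Finset.exists_le_card_fiber_of_mul_le_card_of_maps_to
          · intro a _
            exact Finset.mem_univ _
          · exact ⟨fun _ => 0, Finset.mem_univ _⟩
          · rw [Finset.card_univ]
            calc Fintype.card (↥R → ZMod p) * (2 * p) ≤ p ^ (3 * m) * (2 * p) :=
                  Nat.mul_le_mul hcardτ le_rfl
              _ = 2 * p * p ^ (3 * m) := by ring
              _ ≤ _ := hH1
        obtain ⟨y, -, hy⟩ := hpig
        obtain ⟨Γ, hΓ, hΓc⟩ := Finset.exists_subset_card_eq hy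
        have hΓH : ∀ v ∈ Γ, v ∈ H := fun v hv =>
          (Finset.mem_sdiff.mp (Finset.mem_filter.mp (hΓ hv)).1).1
        have hΓR : ∀ v ∈ Γ, v ∉ R := fun v hv =>
          (Finset.mem_sdiff.mp (Finset.mem_filter.mp (hΓ hv)).1).2
        have hΓτ : ∀ v ∈ Γ, τ v = y := fun v hv => (Finset.mem_filter.mp (hΓ hv)).2
        have hΓA : Γ ⊆ A := fun v hv => hHA (hΓH v hv)
        have htw : ∀ x ∈ Γ, ∀ y ∈ Γ, ∀ v ∈ A \ Γ, W s(v, x) = W s(v, y) := by
          intro x hx x' hx' v hv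
          rw [Finset.mem_sdiff] at hv
          by_cases hxx : x = x'
          · rw [hxx]
          by_cases hvH : v ∈ H
          · rw [hHε v hvH x (hΓH x hx) (fun h => hv.2 (h ▸ hx)),
              hHε v hvH x' (hΓH x' hx') (fun h => hv.2 (h ▸ hx'))]
          · by_cases hvR : v ∈ R
            · have h1 : τ x ⟨v, hvR⟩ = τ x' ⟨v, hvR⟩ := by rw [hΓτ x hx, hΓτ x' hx']
              simp only [τ] at h1
              rw [Sym2.eq_swap, h1, Sym2.eq_swap]
            · have hxv : x ≠ v := fun h => hv.2 (h ▸ hx)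
              have hxv' : x' ≠ v := fun h => hv.2 (h ▸ hx')
              have h1 := hR ![x, x', v] (inj3 hxx hxv hxv')
                (mem3 (P := fun q => q ∈ A) (hΓA hx) (hΓA hx') hv.1)
                (mem3 (P := fun q => q ∉ R) (hΓR x hx) (hΓR x' hx') hvR)
              by_contra hne
              apply h1
              refine ⟨hΓH x hx, hΓH x' hx', hvH, ?_⟩
              intro h2
              apply hne
              have h3 : W s(x, v) = W s(x', v) := h2
              rw [Sym2.eq_swap, h3, Sym2.eq_swap]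
        have hΓle : #Γ ≤ #A := Finset.card_le_card hΓA
        have hcA : #(A \ Γ) = #A - 2 * p := by
          rw [Finset.card_sdiff_of_subset hΓA, hΓc]
        apply twins_step W hW f A Γ B hA hΓA hΓc ε
          (fun x hx y hy hxy => hHε x (hΓH x hx) y (hΓH y hy) hxy) htw c₂
          (fun B f h => hc₂ B f h) (by omega)
        intro hQ
        exact ih (#(A \ Γ)) (by omega) (A \ Γ) hQ (by omega) rfl

end Pool.Agent.ZSR
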