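import Mathlib

set_option autoImplicit false
set_option linter.unusedSectionVars false

open Finset

namespace Pool.Agent.ZSR

section Q

variable {V : Type} [DecidableEq V] {M : Type} [AddCommMonoid M]

/-- Sum of `F` over all unordered pairs (diagonal included) of elements of `A`. -/
def Q (F : Sym2 V → M) (A : Finset V) : M := ∑ e ∈ A.sym2, F e

theorem Q_congr {F F' : Sym2 V → M} {A : Finset V}
    (h : ∀ x ∈ A, ∀ y ∈ A, F s(x, y) = F' s(x, y)) : Q F A = Q F' A := by
  unfold Q
  apply Finset.sum_congr rfl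
  intro e he
  induction e using Sym2.ind with
  | _ x y =>
    rw [Finset.mk_mem_sym2_iff] at he
    exact h x he.1 y he.2

theorem Q_empty (F : Sym2 V → M) : Q F ∅ = 0 := by
  simp [Q]

theorem Q_insert (F : Sym2 V → M) {a : V} {A : Finset V} (ha : a ∉ A) :
    Q F (insert a A) = F s(a, a) + ∑ v ∈ A, F s(a, v) + Q F A := by
  unfold Q
  rw [Finset.sym2_insert, Finset.sum_union, Finset.sum_image, Finset.sum_insert ha]
  · intro x _ y _ hxy
    exact Sym2.congr_right.mp hxy
  · rw [Finset.disjoint_left]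
    intro e he he'
    rw [Finset.mem_image] at he
    obtain ⟨x, -, rfl⟩ := he
    rw [Finset.mk_mem_sym2_iff] at he'
    exact ha he'.1

theorem Q_union (F : Sym2 V → M) {A B : Finset V} (h : Disjoint A B) :
    Q F (A ∪ B) = Q F A + Q F B + ∑ a ∈ A, ∑ b ∈ B, F s(a, b) := by
  induction A using Finset.induction_on with
  | empty => simp [Q_empty]
  | insert a A ha ih =>
    rw [Finset.disjoint_insert_left] at h
    have ih' := ih h.2
    have ha' : a ∉ A ∪ B := by
      rw [Finset.mem_union]; exact fun h' => h'.elim ha h.1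
    rw [Finset.insert_union, Q_insert F ha', ih', Q_insert F ha, Finset.sum_union h.2,
      Finset.sum_insert ha]
    abel

end Q

section card

/-- the value of `Q` for constant weights off the diagonal -/
theorem Q_const {V : Type} [DecidableEq V] {R : Type} [CommRing R] (W : Sym2 V → R)
    (hW : ∀ v, W s(v, v) = 0) (ε : R) (A : Finset V)
    (h : ∀ x ∈ A, ∀ y ∈ A, x ≠ y → W s(x, y) = ε) : Q W A = ((#A).choose 2 : ℕ) * ε := by
  induction A using Finset.induction_on with
  | empty => simp [Q_empty]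
  | insert a A ha ih =>
    rw [Q_insert W ha, hW, ih, Finset.card_insert_of_notMem ha]
    · have : ∑ v ∈ A, W s(a, v) = ∑ v ∈ A, ε := by
        apply Finset.sum_congr rfl
        intro v hv
        apply h a (Finset.mem_insert_self _ _) v (Finset.mem_insert_of_mem hv)
        rintro rfl
        exact ha hv
      rw [this, Finset.sum_const, Nat.choose_succ_succ' (#A) 1, Nat.choose_one_right]
      push_cast
      rw [nsmul_eq_mul]
      ring
    · intro x hx y hy hxy
      exact h x (Finset.mem_insert_of_mem hx) y (Finset.mem_insert_of_mem hy) hxy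

end card

section ext

variable {V Ω : Type} [DecidableEq V] [DecidableEq Ω]

/-- extend an injection by mapping `Γ` bijectively onto `t`. -/
theorem extend_bij {A Γ : Finset V} {B t : Finset Ω} (φ : V → Ω) (hdis : Disjoint A Γ)
    (hinj : Set.InjOn φ A) (hmaps : ∀ v ∈ A, φ v ∈ B) (ht : t ⊆ B) (htd : ∀ v ∈ A, φ v ∉ t)
    (hcard : #Γ = #t) :
    ∃ ψ : V → Ω, (∀ v ∈ A, ψ v = φ v) ∧ Set.InjOn ψ (A ∪ Γ : Finset V) ∧
      (∀ v ∈ A ∪ Γ, ψ v ∈ B) ∧ Γ.image ψ = t := by
  classical
  let e := Finset.equivOfCardEq hcard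
  have hval : ∀ v (h : v ∈ Γ), (fun v => if h : v ∈ Γ then (e ⟨v, h⟩ : Ω) else φ v) v
      = (e ⟨v, h⟩ : Ω) := by
    intro v h
    simp [h]
  have hA : ∀ v ∈ A, (fun v => if h : v ∈ Γ then (e ⟨v, h⟩ : Ω) else φ v) v = φ v := by
    intro v hv
    have : v ∉ Γ := Finset.disjoint_left.mp hdis hv
    simp [this]
  refine ⟨fun v => if h : v ∈ Γ then (e ⟨v, h⟩ : Ω) else φ v, hA, ?_, ?_, ?_⟩
  · intro x hx y hy hxy
    rw [Finset.mem_coe, Finset.mem_union] at hx hy
    rcases hx with hx | hx <;> rcases hy with hy | hy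
    · rw [hA x hx, hA y hy] at hxy
      exact hinj hx hy hxy
    · rw [hA x hx, hval y hy] at hxy
      exact absurd (hxy ▸ (e ⟨y, hy⟩).2) (htd x hx)
    · rw [hA y hy, hval x hx] at hxy
      exact absurd (hxy ▸ (e ⟨x, hx⟩).2) (htd y hy)
    · rw [hval x hx, hval y hy] at hxy
      have := e.injective (Subtype.ext hxy)
      simpa using this
  · intro v hv
    rcases Finset.mem_union.mp hv with hv | hv
    · rw [hA v hv]; exact hmaps v hv
    · rw [hval v hv]; exact ht (e ⟨v, hv⟩).2
  · ext x
    rw [Finset.mem_image]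
    constructor
    · rintro ⟨v, hv, rfl⟩
      simp only [dif_pos hv]
      exact (e ⟨v, hv⟩).2
    · intro hx
      refine ⟨e.symm ⟨x, hx⟩, (e.symm ⟨x, hx⟩).2, ?_⟩
      simp

/-- extend a given injection on `A₀` to `A₀ ∪ C` inside `B`. -/
theorem extend_inj {A₀ C : Finset V} {B : Finset Ω} (φ : V → Ω)
    (hinj : Set.InjOn φ A₀) (hmaps : ∀ v ∈ A₀, φ v ∈ B) (hcard : #(A₀ ∪ C) ≤ #B) :
    ∃ ψ : V → Ω, (∀ v ∈ A₀, ψ v = φ v) ∧ Set.InjOn ψ (A₀ ∪ C : Finset V) ∧
      (∀ v ∈ A₀ ∪ C, ψ v ∈ B) := by
  have him : #(A₀.image φ) = #A₀ := Finset.card_image_of_injOn hinj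
  have himB : A₀.image φ ⊆ B := by
    intro x hx
    obtain ⟨v, hv, rfl⟩ := Finset.mem_image.mp hx
    exact hmaps v hv
  have h1 : #(B \ A₀.image φ) = #B - #A₀ := by
    rw [Finset.card_sdiff_of_subset himB, him]
  have h2 : #(A₀ ∪ C) = #A₀ + #(C \ A₀) := by
    rw [← Finset.union_sdiff_self_eq_union, Finset.card_union_of_disjoint Finset.disjoint_sdiff]
  have h3 : #(C \ A₀) ≤ #(B \ A₀.image φ) := by omega
  obtain ⟨t, ht, htc⟩ := Finset.exists_subset_card_eq h3
  obtain ⟨ψ, h4, h5, h6, -⟩ := extend_bij (A := A₀) (Γ := C \ A₀) (B := B) (t := t) φ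
    Finset.disjoint_sdiff hinj hmaps (ht.trans Finset.sdiff_subset)
    (fun v hv hvt => (Finset.mem_sdiff.mp (ht hvt)).2 (Finset.mem_image_of_mem _ hv)) htc.symm
  rw [Finset.union_sdiff_self_eq_union] at h5 h6
  exact ⟨ψ, h4, h5, h6⟩

end ext

section subsetSums

open scoped Pointwise

/-- subset sums of `p - 1` nonzero elements cover `ZMod p` -/
theorem subset_sums {p : ℕ} [hp : Fact p.Prime] {ι : Type} [DecidableEq ι] (D : ι → ZMod p)
    (I : Finset ι) (hI : ∀ i ∈ I, D i ≠ 0) :
    min p (#I + 1) ≤ #(I.powerset.image (fun a => ∑ i ∈ a, D i)) := by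
  induction I using Finset.induction_on with
  | empty => simp
  | insert j I hj ih =>
    have ih' := ih (fun i hi => hI i (Finset.mem_insert_of_mem hi))
    have hsub : (I.powerset.image (fun a => ∑ i ∈ a, D i)) + ({0, D j} : Finset (ZMod p)) ⊆
        ((insert j I).powerset.image (fun a => ∑ i ∈ a, D i)) := by
      intro x hx
      obtain ⟨y, hy, z, hz, rfl⟩ := Finset.mem_add.mp hx
      obtain ⟨a, ha, rfl⟩ := Finset.mem_image.mp hy
      rw [Finset.mem_powerset] at ha
      rw [Finset.mem_image]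
      rcases Finset.mem_insert.mp hz with rfl | hz
      · refine ⟨a, ?_, by simp⟩
        rw [Finset.mem_powerset]
        exact ha.trans (Finset.subset_insert _ _)
      · rw [Finset.mem_singleton] at hz
        subst hz
        refine ⟨insert j a, ?_, ?_⟩
        · rw [Finset.mem_powerset]
          exact Finset.insert_subset_insert _ ha
        · rw [Finset.sum_insert (fun h => hj (ha h))]
          ring
    have hcd := ZMod.cauchy_davenport hp.out
      (s := (I.powerset.image (fun a => ∑ i ∈ a, D i))) (t := ({0, D j} : Finset (ZMod p)))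
      ⟨0, Finset.mem_image.mpr ⟨∅, by simp, by simp⟩⟩ (by simp)
    have h2 : #({0, D j} : Finset (ZMod p)) = 2 := by
      rw [Finset.card_pair]
      exact (hI j (Finset.mem_insert_self _ _)).symm
    have h3 := Finset.card_le_card hsub
    rw [h2] at hcd
    rw [Finset.card_insert_of_notMem hj]
    omega

theorem exists_subset_sum {p : ℕ} [hp : Fact p.Prime] {ι : Type} [DecidableEq ι] (D : ι → ZMod p)
    (I : Finset ι) (hI : ∀ i ∈ I, D i ≠ 0) (hcard : p - 1 ≤ #I) (t : ZMod p) :
    ∃ a ⊆ I, ∑ i ∈ a, D i = t := by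
  have h1 := subset_sums D I hI
  have hp2 := hp.out.two_le
  have h2 : min p (#I + 1) = p := by omega
  rw [h2] at h1
  have h3 : (I.powerset.image (fun a => ∑ i ∈ a, D i)) = Finset.univ := by
    apply Finset.eq_univ_of_card
    rw [ZMod.card]
    have h4 := Finset.card_le_univ (I.powerset.image (fun a => ∑ i ∈ a, D i))
    rw [ZMod.card] at h4
    omega
  have h4 : t ∈ (I.powerset.image (fun a => ∑ i ∈ a, D i)) := by
    rw [h3]; exact Finset.mem_univ _
  obtain ⟨a, ha, hat⟩ := Finset.mem_image.mp h4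
  exact ⟨a, Finset.mem_powerset.mp ha, hat⟩

end subsetSums

section avg

theorem avg {K : Type} [DecidableEq K] [Zero K] (m : ℕ) (D : (Fin m → Bool) → Fin m → K)
    (h : ∀ b i, D b i = 0 → D (Function.update b i (!(b i))) i ≠ 0) :
    ∃ b, m ≤ 2 * #{i | D b i ≠ 0} := by
  have h1 : ∀ i, #{b | D b i = 0} ≤ #{b | D b i ≠ 0} := by
    intro i
    apply Finset.card_le_card_of_injOn (fun b => Function.update b i (!(b i)))
    · intro b hb
      have hb' := (Finset.mem_filter.mp (Finset.mem_coe.mp hb)).2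
      rw [Finset.mem_coe, Finset.mem_filter]
      exact ⟨Finset.mem_univ _, h b i hb'⟩
    · intro b _ b' _ hbb
      funext j
      have h2 := congrFun hbb j
      by_cases hj : j = i
      · subst hj
        simpa using h2
      · simpa [Function.update_of_ne hj] using h2
  have h2 : ∑ b : (Fin m → Bool), #{i | D b i = 0} ≤ ∑ b : (Fin m → Bool), #{i | D b i ≠ 0} := by
    have e1 : ∑ b : (Fin m → Bool), #{i | D b i = 0} = ∑ i, #{b | D b i = 0} := by
      simp_rw [Finset.card_filter]
      exact Finset.sum_comm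
    have e2 : ∑ b : (Fin m → Bool), #{i | D b i ≠ 0} = ∑ i, #{b | D b i ≠ 0} := by
      simp_rw [Finset.card_filter]
      exact Finset.sum_comm
    rw [e1, e2]
    exact Finset.sum_le_sum (fun i _ => h1 i)
  obtain ⟨b, -, hb⟩ := Finset.exists_le_of_sum_le (s := (Finset.univ : Finset (Fin m → Bool)))
    ⟨fun _ => false, Finset.mem_univ _⟩ h2
  refine ⟨b, ?_⟩
  have h3 : #{i | D b i = 0} + #{i | D b i ≠ 0} = m := by
    rw [Finset.card_filter_add_card_filter_not, Finset.card_univ, Fintype.card_fin]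
  omega

end avg

section maxfam

/-- either `m` disjoint tuples satisfying `P`, or a small hitting set. -/
theorem maxfam {Ω : Type} [DecidableEq Ω] (r : ℕ) (B : Finset Ω) (P : (Fin r → Ω) → Prop)
    (m : ℕ) :
    (∃ t : Fin m → Fin r → Ω, Function.Injective2 t ∧ (∀ i a, t i a ∈ B) ∧ ∀ i, P (t i)) ∨
    (∃ R : Finset Ω, #R ≤ r * m ∧ ∀ q : Fin r → Ω, Function.Injective q →
      (∀ a, q a ∈ B) → (∀ a, q a ∉ R) → ¬ P q) := by
  induction m with
  | zero =>
    left
    exact ⟨fun i => i.elim0, fun {a₁} => a₁.elim0, fun i => i.elim0, fun i => i.elim0⟩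
  | succ m ih =>
    rcases ih with ⟨t, ht1, ht2, ht3⟩ | ⟨R, hR1, hR2⟩
    · let R : Finset Ω := Finset.univ.image (fun x : Fin m × Fin r => t x.1 x.2)
      have hR : #R ≤ r * m := by
        calc #R ≤ #(Finset.univ : Finset (Fin m × Fin r)) := Finset.card_image_le
          _ = r * m := by simp [mul_comm]
      by_cases hq : ∃ q : Fin r → Ω, Function.Injective q ∧ (∀ a, q a ∈ B) ∧ (∀ a, q a ∉ R) ∧ P q
      · left
        obtain ⟨q, hq1, hq2, hq3, hq4⟩ := hq
        have hmem : ∀ i a, t i a ∈ R := by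
          intro i a
          exact Finset.mem_image.mpr ⟨(i, a), Finset.mem_univ _, rfl⟩
        refine ⟨Fin.cons q t, ?_, ?_, ?_⟩
        · intro i j a b
          refine Fin.cases ?_ (fun i' => ?_) i <;> refine Fin.cases ?_ (fun j' => ?_) j
          · intro hab
            simp only [Fin.cons_zero] at hab
            exact ⟨rfl, hq1 hab⟩
          · intro hab
            simp only [Fin.cons_zero, Fin.cons_succ] at hab
            exact absurd (hab ▸ hmem j' b) (hq3 a)
          · intro hab
            simp only [Fin.cons_zero, Fin.cons_succ] at hab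
            exact absurd (hab ▸ hmem i' a) (hq3 b)
          · intro hab
            simp only [Fin.cons_succ] at hab
            obtain ⟨h1, h2⟩ := ht1 hab
            exact ⟨by rw [h1], h2⟩
        · intro i a
          refine Fin.cases ?_ (fun i' => ?_) i
          · simpa using hq2 a
          · simpa using ht2 i' a
        · intro i
          refine Fin.cases ?_ (fun i' => ?_) i
          · simpa using hq4
          · simpa using ht3 i'
      · right
        refine ⟨R, hR.trans (by nlinarith), ?_⟩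
        intro q hq1 hq2 hq3 hq4
        exact hq ⟨q, hq1, hq2, hq3, hq4⟩
    · right
      exact ⟨R, hR1.trans (by nlinarith), hR2⟩

end maxfam

end Pool.Agent.ZSR
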