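import Mathlib

set_option autoImplicit false

open Finset

namespace Pool.Agent.ZSR

/-- Multi-colour Ramsey theorem for pairs, in vector form. -/
theorem ramsey_vec {κ : Type} [Fintype κ] [DecidableEq κ] :
    ∀ (s : ℕ) (k : κ → ℕ), ∑ c, k c = s → ∃ R : ℕ, ∀ {Ω : Type} [DecidableEq Ω] (B : Finset Ω)
      (f : Sym2 Ω → κ), R ≤ #B →
        ∃ c, ∃ C ⊆ B, #C = k c ∧ ∀ x ∈ C, ∀ y ∈ C, x ≠ y → f s(x, y) = c := by
  intro s
  induction s with
  | zero =>
    intro k hk
    refine ⟨1, ?_⟩
    intro Ω _ B f hB
    obtain ⟨v, hv⟩ : B.Nonempty := by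
      rw [← Finset.card_pos]; omega
    refine ⟨f s(v, v), ∅, by simp, ?_, by simp⟩
    have := (Finset.sum_eq_zero_iff.mp hk) (f s(v, v)) (Finset.mem_univ _)
    simp [this]
  | succ s ih =>
    intro k hk
    by_cases h0 : ∃ c, k c = 0
    · obtain ⟨c, hc⟩ := h0
      refine ⟨0, ?_⟩
      intro Ω _ B f hB
      exact ⟨c, ∅, by simp, by simp [hc], by simp⟩
    · push Not at h0
      have key : ∀ c : κ, ∃ R : ℕ, ∀ {Ω : Type} [DecidableEq Ω] (B : Finset Ω)
          (f : Sym2 Ω → κ), R ≤ #B →
            ∃ c', ∃ C ⊆ B, #C = Function.update k c (k c - 1) c' ∧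
              ∀ x ∈ C, ∀ y ∈ C, x ≠ y → f s(x, y) = c' := by
        intro c
        apply ih
        have h1 := h0 c
        have h2 : ∑ c', k c' = k c + ∑ c' ∈ Finset.univ.erase c, k c' :=
          (Finset.add_sum_erase _ _ (Finset.mem_univ c)).symm
        have h3 : ∑ c', Function.update k c (k c - 1) c'
            = Function.update k c (k c - 1) c
              + ∑ c' ∈ Finset.univ.erase c, Function.update k c (k c - 1) c' :=
          (Finset.add_sum_erase _ _ (Finset.mem_univ c)).symm
        have h4 : ∑ c' ∈ Finset.univ.erase c, Function.update k c (k c - 1) c'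
            = ∑ c' ∈ Finset.univ.erase c, k c' := by
          apply Finset.sum_congr rfl
          intro x hx
          rw [Function.update_of_ne (Finset.ne_of_mem_erase hx)]
        rw [h3, h4, Function.update_self]
        omega
      choose R hR using key
      refine ⟨1 + ∑ c, R c, ?_⟩
      intro Ω _ B f hB
      obtain ⟨v, hv⟩ : B.Nonempty := by
        rw [← Finset.card_pos]; omega
      have hcard : #(B.erase v) = ∑ c, #{x ∈ B.erase v | f s(v, x) = c} :=
        Finset.card_eq_sum_card_fiberwise (fun _ _ => Finset.mem_coe.mpr (Finset.mem_univ _))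
      have hle : ∑ c, R c ≤ ∑ c, #{x ∈ B.erase v | f s(v, x) = c} := by
        rw [← hcard, Finset.card_erase_of_mem hv]; omega
      obtain ⟨c, -, hc⟩ := Finset.exists_le_of_sum_le
        (s := (Finset.univ : Finset κ)) ⟨f s(v, v), Finset.mem_univ _⟩ hle
      obtain ⟨c', C, hCB, hCc, hC⟩ := hR c _ f hc
      by_cases hcc : c' = c
      · subst hcc
        have hvC : v ∉ C := by
          intro hvC
          have := hCB hvC
          simp at this
        refine ⟨c', insert v C, ?_, ?_, ?_⟩
        · intro x hx
          rcases Finset.mem_insert.mp hx with rfl | hx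
          · exact hv
          · exact Finset.mem_of_mem_erase (Finset.mem_filter.mp (hCB hx)).1
        · rw [Finset.card_insert_of_notMem hvC, hCc, Function.update_self]
          have := h0 c'
          omega
        · intro x hx y hy hxy
          rcases Finset.mem_insert.mp hx with hx1 | hx1
          · rcases Finset.mem_insert.mp hy with hy1 | hy1
            · exact absurd (hx1.trans hy1.symm) hxy
            · rw [hx1]
              exact (Finset.mem_filter.mp (hCB hy1)).2
          · rcases Finset.mem_insert.mp hy with hy1 | hy1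
            · rw [hy1, Sym2.eq_swap]
              exact (Finset.mem_filter.mp (hCB hx1)).2
            · exact hC x hx1 y hy1 hxy
      · refine ⟨c', C, ?_, ?_, hC⟩
        · intro x hx
          exact Finset.mem_of_mem_erase (Finset.mem_filter.mp (hCB hx)).1
        · rw [hCc, Function.update_of_ne hcc]

theorem ramsey {κ : Type} [Fintype κ] [DecidableEq κ] (k : ℕ) :
    ∃ R : ℕ, ∀ {Ω : Type} [DecidableEq Ω] (B : Finset Ω)
      (f : Sym2 Ω → κ), R ≤ #B →
        ∃ c, ∃ C ⊆ B, #C = k ∧ ∀ x ∈ C, ∀ y ∈ C, x ≠ y → f s(x, y) = c :=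
  ramsey_vec _ (fun _ => k) rfl

end Pool.Agent.ZSR
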