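import Pool.Agent.ZSR.Ramsey
import Pool.Agent.ZSR.Basic

set_option autoImplicit false
set_option linter.unusedSectionVars false

open Finset

namespace Pool.Agent.ZSR

variable {V Ω : Type} [DecidableEq V] [DecidableEq Ω] {p : ℕ} [hp : Fact p.Prime]

/-- weighted sum of the colours of the copy given by `φ`. -/
def S (W : Sym2 V → ZMod p) (f : Sym2 Ω → ZMod p) (φ : V → Ω) (A : Finset V) : ZMod p :=
  Q (fun e => W e * f (e.map φ)) A

theorem S_congr (W : Sym2 V → ZMod p) (f : Sym2 Ω → ZMod p) {φ ψ : V → Ω} {A : Finset V}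
    (h : ∀ v ∈ A, φ v = ψ v) : S W f φ A = S W f ψ A := by
  apply Q_congr
  intro x hx y hy
  simp only [Sym2.map_mk]
  rw [h x hx, h y hy]

theorem S_decomp (W : Sym2 V → ZMod p) (hW : ∀ v, W s(v, v) = 0) (f : Sym2 Ω → ZMod p)
    (φ : V → Ω) {A : Finset V} {u u' : V} (huu : u ≠ u') (hu : u ∈ A) (hu' : u' ∈ A) :
    S W f φ A = W s(u, u') * f s(φ u, φ u')
      + ∑ v ∈ (A.erase u).erase u', W s(u, v) * f s(φ u, φ v)
      + ∑ v ∈ (A.erase u).erase u', W s(u', v) * f s(φ u', φ v)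
      + S W f φ ((A.erase u).erase u') := by
  have h1 : A = insert u (insert u' ((A.erase u).erase u')) := by
    rw [Finset.insert_erase (Finset.mem_erase.mpr ⟨huu.symm, hu'⟩), Finset.insert_erase hu]
  have h2 : u' ∉ (A.erase u).erase u' := Finset.notMem_erase _ _
  have h3 : u ∉ insert u' ((A.erase u).erase u') := by
    rw [Finset.mem_insert]
    rintro (h | h)
    · exact huu h
    · exact Finset.notMem_erase u A (Finset.mem_of_mem_erase h)
  conv_lhs => rw [h1]
  unfold S
  rw [Q_insert _ h3, Q_insert _ h2, Finset.sum_insert h2]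
  simp only [Sym2.map_mk, hW, zero_mul, zero_add]
  ring

theorem S_swap (W : Sym2 V → ZMod p) (hW : ∀ v, W s(v, v) = 0) (f : Sym2 Ω → ZMod p)
    (φ : V → Ω) {A : Finset V} {u u' : V} (huu : u ≠ u') (hu : u ∈ A) (hu' : u' ∈ A) :
    S W f (φ ∘ Equiv.swap u u') A = S W f φ A
      + ∑ v ∈ (A.erase u).erase u', (W s(u, v) - W s(u', v)) * (f s(φ u', φ v) - f s(φ u, φ v)) := by
  have h0 : ∀ v ∈ (A.erase u).erase u', (φ ∘ Equiv.swap u u') v = φ v := by
    intro v hv
    rw [Finset.mem_erase, Finset.mem_erase] at hv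
    simp only [Function.comp_apply]
    rw [Equiv.swap_apply_of_ne_of_ne hv.2.1 hv.1]
  rw [S_decomp W hW f _ huu hu hu', S_decomp W hW f φ huu hu hu', S_congr W f h0]
  have h1 : ∑ v ∈ (A.erase u).erase u', W s(u, v) * f s((φ ∘ Equiv.swap u u') u, (φ ∘ Equiv.swap u u') v)
      = ∑ v ∈ (A.erase u).erase u', W s(u, v) * f s(φ u', φ v) := by
    apply Finset.sum_congr rfl
    intro v hv
    rw [h0 v hv]
    simp
  have h2 : ∑ v ∈ (A.erase u).erase u', W s(u', v) * f s((φ ∘ Equiv.swap u u') u', (φ ∘ Equiv.swap u u') v)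
      = ∑ v ∈ (A.erase u).erase u', W s(u', v) * f s(φ u, φ v) := by
    apply Finset.sum_congr rfl
    intro v hv
    rw [h0 v hv]
    simp
  have h3 : f s((φ ∘ Equiv.swap u u') u, (φ ∘ Equiv.swap u u') u') = f s(φ u, φ u') := by
    simp only [Function.comp_apply, Equiv.swap_apply_left, Equiv.swap_apply_right]
    rw [Sym2.eq_swap]
  rw [h1, h2, h3]
  have h4 : ∑ v ∈ (A.erase u).erase u', (W s(u, v) - W s(u', v)) * (f s(φ u', φ v) - f s(φ u, φ v))
      = ∑ v ∈ (A.erase u).erase u', W s(u, v) * f s(φ u', φ v)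
        - ∑ v ∈ (A.erase u).erase u', W s(u, v) * f s(φ u, φ v)
        - ∑ v ∈ (A.erase u).erase u', W s(u', v) * f s(φ u', φ v)
        + ∑ v ∈ (A.erase u).erase u', W s(u', v) * f s(φ u, φ v) := by
    rw [← Finset.sum_sub_distrib, ← Finset.sum_sub_distrib, ← Finset.sum_add_distrib]
    apply Finset.sum_congr rfl
    intro v _
    ring
  rw [h4]
  ring

/-- toggling the pairs `(u i, u' i)` in a homogeneous set. -/
theorem toggle_a (W : Sym2 V → ZMod p) (hW : ∀ v, W s(v, v) = 0) (f : Sym2 Ω → ZMod p)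
    (A H : Finset V) (hHA : H ⊆ A) (ε : ZMod p) (hH : ∀ x ∈ H, ∀ y ∈ H, x ≠ y → W s(x, y) = ε)
    (B : Finset Ω) (φ : V → Ω) (hinj : Set.InjOn φ A) (hmaps : ∀ v ∈ A, φ v ∈ B)
    {m : ℕ} (u u' : Fin m → V) (hu : ∀ i, u i ∈ H) (hu' : ∀ i, u' i ∈ H)
    (huu : ∀ i j, u i ≠ u' j) (hui : Function.Injective u) (hui' : Function.Injective u')
    (a : Finset (Fin m)) :
    ∃ ψ : V → Ω, Set.InjOn ψ A ∧ (∀ v ∈ A, ψ v ∈ B) ∧ (∀ v ∈ A \ H, ψ v = φ v) ∧
      (∀ i ∉ a, ψ (u i) = φ (u i) ∧ ψ (u' i) = φ (u' i)) ∧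
      S W f ψ A = S W f φ A + ∑ i ∈ a, ∑ v ∈ A \ H,
        (W s(u i, v) - W s(u' i, v)) * (f s(φ (u' i), φ v) - f s(φ (u i), φ v)) := by
  induction a using Finset.induction_on with
  | empty => exact ⟨φ, hinj, hmaps, fun _ _ => rfl, fun _ _ => ⟨rfl, rfl⟩, by simp⟩
  | insert i a hi ih =>
    obtain ⟨ψ, h1, h2, h3, h4, h5⟩ := ih
    have huA : u i ∈ A := hHA (hu i)
    have huA' : u' i ∈ A := hHA (hu' i)
    have hswapA : ∀ v ∈ A, Equiv.swap (u i) (u' i) v ∈ A := by
      intro v hv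
      by_cases hv1 : v = u i
      · rw [hv1, Equiv.swap_apply_left]; exact huA'
      · by_cases hv2 : v = u' i
        · rw [hv2, Equiv.swap_apply_right]; exact huA
        · rw [Equiv.swap_apply_of_ne_of_ne hv1 hv2]; exact hv
    refine ⟨ψ ∘ Equiv.swap (u i) (u' i), ?_, ?_, ?_, ?_, ?_⟩
    · intro x hx y hy hxy
      have := h1 (hswapA x hx) (hswapA y hy) hxy
      exact (Equiv.swap (u i) (u' i)).injective this
    · intro v hv
      exact h2 _ (hswapA v hv)
    · intro v hv
      rw [Finset.mem_sdiff] at hv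
      have hne1 : v ≠ u i := fun h => hv.2 (by rw [h]; exact hu i)
      have hne2 : v ≠ u' i := fun h => hv.2 (by rw [h]; exact hu' i)
      simp only [Function.comp_apply]
      rw [Equiv.swap_apply_of_ne_of_ne hne1 hne2]
      exact h3 v (Finset.mem_sdiff.mpr hv)
    · intro j hj
      rw [Finset.mem_insert, not_or] at hj
      have hj1 : u j ≠ u i := fun h => hj.1 (hui h)
      have hj2 : u' j ≠ u' i := fun h => hj.1 (hui' h)
      simp only [Function.comp_apply]
      rw [Equiv.swap_apply_of_ne_of_ne hj1 (huu j i),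
        Equiv.swap_apply_of_ne_of_ne (huu i j).symm hj2]
      exact h4 j hj.2
    · rw [S_swap W hW f ψ (huu i i) huA huA', h5, Finset.sum_insert hi]
      have hsub : A \ H ⊆ (A.erase (u i)).erase (u' i) := by
        intro v hv
        rw [Finset.mem_sdiff] at hv
        rw [Finset.mem_erase, Finset.mem_erase]
        exact ⟨fun h => hv.2 (h ▸ hu' i), fun h => hv.2 (h ▸ hu i), hv.1⟩
      have hsum : ∑ v ∈ (A.erase (u i)).erase (u' i),
          (W s(u i, v) - W s(u' i, v)) * (f s(ψ (u' i), ψ v) - f s(ψ (u i), ψ v))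
          = ∑ v ∈ A \ H,
          (W s(u i, v) - W s(u' i, v)) * (f s(φ (u' i), φ v) - f s(φ (u i), φ v)) := by
        rw [← Finset.sum_subset hsub]
        · apply Finset.sum_congr rfl
          intro v hv
          rw [h3 v hv, (h4 i hi).1, (h4 i hi).2]
        · intro v hv hv'
          rw [Finset.mem_erase, Finset.mem_erase] at hv
          have hvH : v ∈ H := by
            by_contra hvH
            exact hv' (Finset.mem_sdiff.mpr ⟨hv.2.2, hvH⟩)
          rw [hH _ (hu i) v hvH hv.2.1.symm, hH _ (hu' i) v hvH hv.1.symm]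
          ring
      rw [hsum]
      ring

/-- The case where both the graph and the colouring are far from being degenerate. -/
theorem toggle_main (W : Sym2 V → ZMod p) (hW : ∀ v, W s(v, v) = 0) (f : Sym2 Ω → ZMod p)
    (A H : Finset V) (hHA : H ⊆ A) (ε : ZMod p) (hH : ∀ x ∈ H, ∀ y ∈ H, x ≠ y → W s(x, y) = ε)
    (B : Finset Ω) {m : ℕ} (hm : 2 * (p - 1) ≤ m) (hAB : #A + m ≤ #B)
    (t : Fin m → Fin 3 → V) (ht : Function.Injective2 t) (ht0 : ∀ i, t i 0 ∈ H)
    (ht1 : ∀ i, t i 1 ∈ H) (ht2 : ∀ i, t i 2 ∈ A \ H)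
    (htW : ∀ i, W s(t i 0, t i 2) ≠ W s(t i 1, t i 2))
    (x : Fin m → Fin 4 → Ω) (hx : Function.Injective2 x) (hxB : ∀ i a, x i a ∈ B)
    (hF : ∀ i, f s(x i 0, x i 2) + f s(x i 1, x i 3) ≠ f s(x i 0, x i 3) + f s(x i 1, x i 2)) :
    ∃ ψ : V → Ω, Set.InjOn ψ A ∧ (∀ v ∈ A, ψ v ∈ B) ∧ S W f ψ A = 0 := by
  classical
  -- the base embedding
  let A₀ : Finset V := Finset.univ.image (fun q : Fin m × Fin 3 => t q.1 q.2)
  have htA : ∀ i a, t i a ∈ A := by
    intro i a
    fin_cases a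
    · exact hHA (ht0 i)
    · exact hHA (ht1 i)
    · exact (Finset.mem_sdiff.mp (ht2 i)).1
  have hA₀ : A₀ ⊆ A := by
    intro v hv
    obtain ⟨q, -, rfl⟩ := Finset.mem_image.mp hv
    exact htA _ _
  let Z : Finset Ω := Finset.univ.image (fun i : Fin m => x i 3)
  have hZ : #Z ≤ m := by
    calc #Z ≤ #(Finset.univ : Finset (Fin m)) := Finset.card_image_le
      _ = m := by simp
  let g₀ : Fin m × Fin 3 → V := fun q => t q.1 q.2
  have hg₀ : Function.Injective g₀ := by
    rintro ⟨i, a⟩ ⟨j, b⟩ h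
    obtain ⟨h1, h2⟩ := ht h
    exact Prod.ext h1 h2
  have hBne : B.Nonempty ∨ m = 0 := by
    rcases Nat.eq_zero_or_pos m with h | h
    · exact Or.inr h
    · exact Or.inl ⟨_, hxB ⟨0, h⟩ 0⟩
  have hp2 := hp.out.two_le
  have hmpos : 0 < m := by omega
  let φ₀ : V → Ω := fun v => if h : ∃ q : Fin m × Fin 3, g₀ q = v then
      x (Classical.choose h).1 (Fin.castSucc (Classical.choose h).2) else x ⟨0, hmpos⟩ 0
  have hφ₀ : ∀ i a, φ₀ (t i a) = x i (Fin.castSucc a) := by
    intro i a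
    have h : ∃ q : Fin m × Fin 3, g₀ q = t i a := ⟨(i, a), rfl⟩
    have h2 : Classical.choose h = (i, a) := hg₀ (Classical.choose_spec h)
    simp only [φ₀, dif_pos h, h2]
  obtain ⟨φ, hφ1, hφ2, hφ3⟩ := extend_inj (A₀ := A₀) (C := A) (B := B \ Z) φ₀
    (by
      intro v hv w hw hvw
      obtain ⟨q, -, rfl⟩ := Finset.mem_image.mp (Finset.mem_coe.mp hv)
      obtain ⟨q', -, rfl⟩ := Finset.mem_image.mp (Finset.mem_coe.mp hw)
      rw [hφ₀, hφ₀] at hvw
      obtain ⟨h1, h2⟩ := hx hvw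
      rw [h1, Fin.castSucc_injective _ h2])
    (by
      intro v hv
      obtain ⟨q, -, rfl⟩ := Finset.mem_image.mp hv
      rw [hφ₀, Finset.mem_sdiff]
      refine ⟨hxB _ _, ?_⟩
      intro h
      obtain ⟨j, -, hj⟩ := Finset.mem_image.mp h
      have := (hx hj).2
      have h3 : (Fin.castSucc q.2).val < 3 := q.2.isLt
      rw [← this] at h3
      exact absurd h3 (by decide))
    (by
      rw [Finset.union_eq_right.mpr hA₀]
      have := Finset.le_card_sdiff Z B
      omega)
  rw [Finset.union_eq_right.mpr hA₀] at hφ2 hφ3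
  have hφt : ∀ i a, φ (t i a) = x i (Fin.castSucc a) := by
    intro i a
    rw [hφ1 _ (Finset.mem_image.mpr ⟨(i, a), Finset.mem_univ _, rfl⟩), hφ₀]
  -- the modified embeddings
  let φb : (Fin m → Bool) → V → Ω := fun b v =>
    if h : ∃ i, t i 2 = v ∧ b i = true then x (Classical.choose h) 3 else φ v
  have hφb_true : ∀ b i, b i = true → φb b (t i 2) = x i 3 := by
    intro b i hb
    have h : ∃ j, t j 2 = t i 2 ∧ b j = true := ⟨i, rfl, hb⟩
    have h2 : Classical.choose h = i := (ht (Classical.choose_spec h).1).1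
    simp only [φb, dif_pos h, h2]
  have hφb_else : ∀ b v, (∀ i, t i 2 = v → b i = false) → φb b v = φ v := by
    intro b v hv
    have h : ¬ ∃ i, t i 2 = v ∧ b i = true := by
      rintro ⟨i, h1, h2⟩
      rw [hv i h1] at h2
      exact absurd h2 (by decide)
    simp only [φb, dif_neg h]
  have hφb_cases : ∀ b v, (∃ i, t i 2 = v ∧ b i = true ∧ φb b v = x i 3) ∨
      ((∀ i, t i 2 = v → b i = false) ∧ φb b v = φ v) := by
    intro b v
    by_cases h : ∃ i, t i 2 = v ∧ b i = true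
    · obtain ⟨i, h1, h2⟩ := h
      left
      refine ⟨i, h1, h2, ?_⟩
      rw [← h1]
      exact hφb_true b i h2
    · right
      have h' : ∀ i, t i 2 = v → b i = false := by
        intro i hi
        by_contra hb
        exact h ⟨i, hi, by simpa using hb⟩
      exact ⟨h', hφb_else b v h'⟩
  have hZmem : ∀ i, x i 3 ∈ Z := fun i => Finset.mem_image.mpr ⟨i, Finset.mem_univ _, rfl⟩
  have hφb_inj : ∀ b, Set.InjOn (φb b) A := by
    intro b v hv w hw hvw
    rcases hφb_cases b v with ⟨i, h1, h2, h3⟩ | ⟨h1, h2⟩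
    · rcases hφb_cases b w with ⟨j, g1, g2, g3⟩ | ⟨g1, g2⟩
      · rw [h3, g3] at hvw
        rw [← h1, ← g1, (hx hvw).1]
      · rw [h3, g2] at hvw
        exact absurd (hvw ▸ hZmem i) (Finset.mem_sdiff.mp (hφ3 w hw)).2
    · rcases hφb_cases b w with ⟨j, g1, g2, g3⟩ | ⟨g1, g2⟩
      · rw [h2, g3] at hvw
        exact absurd (hvw ▸ hZmem j) (Finset.mem_sdiff.mp (hφ3 v hv)).2
      · rw [h2, g2] at hvw
        exact hφ2 hv hw hvw
  have hφb_maps : ∀ b, ∀ v ∈ A, φb b v ∈ B := by
    intro b v hv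
    rcases hφb_cases b v with ⟨i, h1, h2, h3⟩ | ⟨h1, h2⟩
    · rw [h3]; exact hxB _ _
    · rw [h2]; exact (Finset.mem_sdiff.mp (hφ3 v hv)).1
  have hne02 : ∀ i j, t i 0 ≠ t j 2 := fun i j h => absurd (ht h).2 (by decide)
  have hne12 : ∀ i j, t i 1 ≠ t j 2 := fun i j h => absurd (ht h).2 (by decide)
  have hφb0 : ∀ b i, φb b (t i 0) = x i 0 := by
    intro b i
    rw [hφb_else b _ (fun j hj => absurd hj.symm (hne02 i j)), hφt]
    rfl
  have hφb1 : ∀ b i, φb b (t i 1) = x i 1 := by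
    intro b i
    rw [hφb_else b _ (fun j hj => absurd hj.symm (hne12 i j)), hφt]
    rfl
  let D : (Fin m → Bool) → Fin m → ZMod p := fun b i => ∑ v ∈ A \ H,
        (W s(t i 0, v) - W s(t i 1, v)) * (f s(x i 1, φb b v) - f s(x i 0, φb b v))
  have key : ∀ b i, D b i = 0 → D (Function.update b i (!(b i))) i ≠ 0 := by
    intro b i h0 h1
    have hdiff : D (Function.update b i (!(b i))) i - D b i
        = (W s(t i 0, t i 2) - W s(t i 1, t i 2)) *
          ((f s(x i 1, φb (Function.update b i (!(b i))) (t i 2))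
            - f s(x i 0, φb (Function.update b i (!(b i))) (t i 2)))
          - (f s(x i 1, φb b (t i 2)) - f s(x i 0, φb b (t i 2)))) := by
      simp only [D]
      rw [← Finset.sum_sub_distrib, Finset.sum_eq_single_of_mem _ (ht2 i)]
      · ring
      · intro v hv hvne
        have : φb (Function.update b i (!(b i))) v = φb b v := by
          rcases hφb_cases b v with ⟨j, g1, g2, g3⟩ | ⟨g1, g2⟩
          · have hji : j ≠ i := by
              rintro rfl
              exact hvne g1.symm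
            rw [g3, ← g1]
            exact hφb_true _ j (by rw [Function.update_of_ne hji]; exact g2)
          · rw [g2]
            apply hφb_else
            intro j hj
            have hji : j ≠ i := by
              rintro rfl
              exact hvne hj.symm
            rw [Function.update_of_ne hji]
            exact g1 j hj
        rw [this]
        ring
    rw [h0, h1, sub_zero] at hdiff
    have hWne : W s(t i 0, t i 2) - W s(t i 1, t i 2) ≠ 0 := sub_ne_zero.mpr (htW i)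
    have h2 := (mul_eq_zero.mp hdiff.symm).resolve_left hWne
    have h3 : φ (t i 2) = x i 2 := by
      rw [hφt]; rfl
    cases hb : b i
    · rw [hφb_true (Function.update b i (!(b i))) i (by simp [hb]),
        hφb_else b (t i 2) (fun j hj => by rw [(ht hj).1]; exact hb), h3] at h2
      apply hF i
      linear_combination h2
    · rw [hφb_true b i hb,
        hφb_else (Function.update b i (!(b i))) (t i 2)
          (fun j hj => by rw [(ht hj).1]; simp [hb]), h3] at h2
      apply hF i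
      linear_combination -h2
  obtain ⟨b, hb⟩ := avg m D key
  obtain ⟨a, -, ha⟩ := exists_subset_sum (D b) {i | D b i ≠ 0}
    (fun i hi => (Finset.mem_filter.mp hi).2) (by omega) (- S W f (φb b) A)
  obtain ⟨ψ, h1, h2, h3, h4, h5⟩ := toggle_a W hW f A H hHA ε hH B (φb b) (hφb_inj b)
    (hφb_maps b) (fun i => t i 0) (fun i => t i 1) ht0 ht1
    (fun i j h => absurd (ht h).2 (by decide)) (fun i j h => (ht h).1) (fun i j h => (ht h).1) a
  refine ⟨ψ, h1, h2, ?_⟩
  rw [h5]
  simp only [hφb0, hφb1]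
  have : ∑ i ∈ a, ∑ v ∈ A \ H, (W s(t i 0, v) - W s(t i 1, v)) *
      (f s(x i 1, φb b v) - f s(x i 0, φb b v)) = ∑ i ∈ a, D b i := rfl
  rw [this, ha]
  ring

end Pool.Agent.ZSR
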