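import Pool.Agent.ZSR.Toggle

set_option autoImplicit false
set_option linter.unusedSectionVars false

open Finset

namespace Pool.Agent.ZSR

variable {V Ω : Type} [DecidableEq V] [DecidableEq Ω] {p : ℕ} [hp : Fact p.Prime]

theorem Q_lin (W : Sym2 V → ZMod p) (hW : ∀ v, W s(v, v) = 0) (h : V → ZMod p)
    (F : Sym2 V → ZMod p) (A : Finset V)
    (hF : ∀ x ∈ A, ∀ y ∈ A, F s(x, y) = W s(x, y) * (h x + h y)) :
    Q F A = ∑ v ∈ A, (∑ u ∈ A, W s(v, u)) * h v := by
  induction A using Finset.induction_on with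
  | empty => simp [Q_empty]
  | insert a A ha ih =>
    have ih' := ih (fun x hx y hy => hF x (Finset.mem_insert_of_mem hx) y
      (Finset.mem_insert_of_mem hy))
    rw [Q_insert F ha, ih', hF a (Finset.mem_insert_self _ _) a (Finset.mem_insert_self _ _), hW,
      Finset.sum_insert ha, Finset.sum_insert ha, hW]
    have h1 : ∑ v ∈ A, F s(a, v) = ∑ v ∈ A, W s(a, v) * h a + ∑ v ∈ A, W s(a, v) * h v := by
      rw [← Finset.sum_add_distrib]
      apply Finset.sum_congr rfl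
      intro v hv
      rw [hF a (Finset.mem_insert_self _ _) v (Finset.mem_insert_of_mem hv)]
      ring
    have h2 : ∑ v ∈ A, (∑ u ∈ insert a A, W s(v, u)) * h v
        = ∑ v ∈ A, W s(a, v) * h v + ∑ v ∈ A, (∑ u ∈ A, W s(v, u)) * h v := by
      rw [← Finset.sum_add_distrib]
      apply Finset.sum_congr rfl
      intro v hv
      rw [Finset.sum_insert ha, Sym2.eq_swap]
      ring
    rw [h1, h2, ← Finset.sum_mul]
    ring

/-- weighted Erdos-Ginzburg-Ziv with many extra elements -/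
theorem wegz (D : V → ZMod p) (a : Ω → ZMod p) :
    ∀ (n : ℕ) (A : Finset V) (B : Finset Ω), #A = n → ∑ v ∈ A, D v = 0 → #A + p ^ 3 ≤ #B →
    ∃ φ : V → Ω, Set.InjOn φ A ∧ (∀ v ∈ A, φ v ∈ B) ∧ ∑ v ∈ A, D v * a (φ v) = 0 := by
  have hp2 := hp.out.two_le
  have hp3 : 2 * p ≤ p ^ 3 := by
    have : 2 * 2 ≤ p * p := Nat.mul_le_mul hp2 hp2
    have h3 : p ^ 3 = p * p * p := by ring
    rw [h3]
    exact Nat.mul_le_mul (by omega) le_rfl
  intro n
  induction n using Nat.strong_induction_on with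
  | _ n ih =>
    intro A B hn hD hAB
    by_cases hδ : ∃ δ, p ≤ #{v ∈ A | D v = δ}
    · obtain ⟨δ, hδ⟩ := hδ
      obtain ⟨Γ, hΓ, hΓc⟩ := Finset.exists_subset_card_eq hδ
      have hΓA : Γ ⊆ A := hΓ.trans (Finset.filter_subset _ _)
      have hΓD : ∀ v ∈ Γ, D v = δ := fun v hv => (Finset.mem_filter.mp (hΓ hv)).2
      have hcA : #(A \ Γ) = #A - p := by
        rw [Finset.card_sdiff_of_subset hΓA, hΓc]
      have hpA : p ≤ #A := by rw [← hΓc]; exact Finset.card_le_card hΓA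
      have hsum : ∑ v ∈ A \ Γ, D v + ∑ v ∈ Γ, D v = ∑ v ∈ A, D v :=
        Finset.sum_sdiff hΓA
      have hΓsum : ∑ v ∈ Γ, D v = 0 := by
        rw [Finset.sum_congr rfl hΓD, Finset.sum_const, hΓc]
        simp
      obtain ⟨φ, h1, h2, h3⟩ := ih (#(A \ Γ)) (by omega) (A \ Γ) B rfl
        (by rw [hΓsum, add_zero] at hsum; rw [hsum, hD]) (by omega)
      have hU : 2 * p - 1 ≤ #(B \ (A \ Γ).image φ) := by
        have h4 := Finset.le_card_sdiff ((A \ Γ).image φ) B
        have h5 : #((A \ Γ).image φ) ≤ #(A \ Γ) := Finset.card_image_le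
        omega
      obtain ⟨t, ht1, ht2, ht3⟩ := ZMod.erdos_ginzburg_ziv a hU
      obtain ⟨ψ, g1, g2, g3, g4⟩ := extend_bij (A := A \ Γ) (Γ := Γ) (B := B) (t := t) φ
        Finset.sdiff_disjoint h1 h2 (ht1.trans Finset.sdiff_subset)
        (fun v hv hvt => (Finset.mem_sdiff.mp (ht1 hvt)).2 (Finset.mem_image_of_mem _ hv))
        (by rw [hΓc, ht2])
      rw [Finset.sdiff_union_of_subset hΓA] at g2 g3
      refine ⟨ψ, g2, g3, ?_⟩
      rw [← Finset.sum_sdiff hΓA]
      have e1 : ∑ v ∈ A \ Γ, D v * a (ψ v) = 0 := by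
        rw [← h3]
        apply Finset.sum_congr rfl
        intro v hv
        rw [g1 v hv]
      have e2 : ∑ v ∈ Γ, D v * a (ψ v) = δ * ∑ x ∈ t, a x := by
        rw [← g4, Finset.sum_image (g2.mono (Finset.coe_subset.mpr hΓA)), Finset.mul_sum]
        apply Finset.sum_congr rfl
        intro v hv
        rw [hΓD v hv]
      rw [e1, e2, ht3]
      ring
    · push Not at hδ
      have hA : #A ≤ p * p := by
        have h1 : #A = ∑ δ : ZMod p, #{v ∈ A | D v = δ} :=
          Finset.card_eq_sum_card_fiberwise (fun _ _ => Finset.mem_coe.mpr (Finset.mem_univ _))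
        rw [h1]
        calc ∑ δ : ZMod p, #{v ∈ A | D v = δ} ≤ ∑ _δ : ZMod p, p :=
              Finset.sum_le_sum (fun δ _ => (hδ δ).le)
          _ = p * p := by
              rw [Finset.sum_const, Finset.card_univ, ZMod.card, smul_eq_mul]
      have hB : ∃ α : ZMod p, p * p ≤ #{x ∈ B | a x = α} := by
        have h1 : #B = ∑ α : ZMod p, #{x ∈ B | a x = α} :=
          Finset.card_eq_sum_card_fiberwise (fun _ _ => Finset.mem_coe.mpr (Finset.mem_univ _))
        have h2 : ∑ _α : ZMod p, p * p ≤ ∑ α : ZMod p, #{x ∈ B | a x = α} := by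
          rw [← h1, Finset.sum_const, Finset.card_univ, ZMod.card, smul_eq_mul]
          have : p * (p * p) = p ^ 3 := by ring
          omega
        obtain ⟨α, -, hα⟩ := Finset.exists_le_of_sum_le
          (s := (Finset.univ : Finset (ZMod p))) ⟨0, Finset.mem_univ _⟩ h2
        exact ⟨α, hα⟩
      obtain ⟨α, hα⟩ := hB
      obtain ⟨x₀, hx₀⟩ : ({x ∈ B | a x = α}).Nonempty := by
        rw [← Finset.card_pos]
        have : 0 < p * p := by positivity
        omega
      obtain ⟨ψ, -, g2, g3⟩ := extend_inj (A₀ := (∅ : Finset V)) (C := A)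
        (B := {x ∈ B | a x = α}) (fun _ => x₀) (by simp) (by simp)
        (by rw [Finset.empty_union]; omega)
      rw [Finset.empty_union] at g2 g3
      refine ⟨ψ, g2, fun v hv => (Finset.mem_filter.mp (g3 v hv)).1, ?_⟩
      have : ∑ v ∈ A, D v * a (ψ v) = ∑ v ∈ A, D v * α := by
        apply Finset.sum_congr rfl
        intro v hv
        rw [(Finset.mem_filter.mp (g3 v hv)).2]
      rw [this, ← Finset.sum_mul, hD, zero_mul]

/-- the case where the colouring is degenerate -/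
theorem ftriv (W : Sym2 V → ZMod p) (hW : ∀ v, W s(v, v) = 0) (f : Sym2 Ω → ZMod p)
    (A : Finset V) (B : Finset Ω) (a : Ω → ZMod p) (κ : ZMod p)
    (hf : ∀ x ∈ B, ∀ y ∈ B, x ≠ y → f s(x, y) = a x + a y + κ) (hA : Q W A = 0)
    (hAB : #A + p ^ 3 ≤ #B) :
    ∃ ψ : V → Ω, Set.InjOn ψ A ∧ (∀ v ∈ A, ψ v ∈ B) ∧ S W f ψ A = 0 := by
  have hD : ∑ v ∈ A, (∑ u ∈ A, W s(v, u)) = 0 := by
    have h1 := Q_lin W hW (fun _ => 1) (fun e => W e * (1 + 1)) A (fun x _ y _ => rfl)
    have h2 : Q (fun e => W e * (1 + 1)) A = Q W A * (1 + 1) := by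
      unfold Q
      rw [Finset.sum_mul]
    rw [h2, hA, zero_mul] at h1
    simpa using h1.symm
  obtain ⟨ψ, h1, h2, h3⟩ := wegz (fun v => ∑ u ∈ A, W s(v, u)) a (#A) A B rfl hD hAB
  refine ⟨ψ, h1, h2, ?_⟩
  have h4 : S W f ψ A = Q (fun e => W e * (f (e.map ψ) - κ)) A + κ * Q W A := by
    unfold S Q
    rw [Finset.mul_sum, ← Finset.sum_add_distrib]
    apply Finset.sum_congr rfl
    intro e _
    ring
  rw [h4, hA, Q_lin W hW (fun v => a (ψ v)), h3]
  · ring
  · intro x hx y hy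
    simp only [Sym2.map_mk]
    by_cases hxy : x = y
    · subst hxy
      rw [hW]; ring
    · rw [hf (ψ x) (h2 x hx) (ψ y) (h2 y hy) (fun h => hxy (h1 hx hy h))]
      ring

/-- no nontrivial alternating 4-cycles implies `f` is a sum of vertex contributions. -/
theorem four_cycle (f : Sym2 Ω → ZMod p) (B : Finset Ω) (hB : 3 ≤ #B)
    (h : ∀ q : Fin 4 → Ω, Function.Injective q → (∀ a, q a ∈ B) →
      f s(q 0, q 2) + f s(q 1, q 3) = f s(q 0, q 3) + f s(q 1, q 2)) :
    ∃ R : Finset Ω, #R ≤ 3 ∧ ∃ (a : Ω → ZMod p) (κ : ZMod p),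
      ∀ x ∈ B \ R, ∀ y ∈ B \ R, x ≠ y → f s(x, y) = a x + a y + κ := by
  have h' : ∀ x ∈ B, ∀ y ∈ B, ∀ z ∈ B, ∀ w ∈ B, x ≠ y → x ≠ z → x ≠ w → y ≠ z → y ≠ w → z ≠ w →
      f s(x, z) + f s(y, w) = f s(x, w) + f s(y, z) := by
    intro x hx y hy z hz w hw h1 h2 h3 h4 h5 h6
    have := h ![x, y, z, w] ?_ ?_
    · simpa using this
    · intro i j hij
      fin_cases i <;> fin_cases j <;> simp_all
    · intro i
      fin_cases i <;> simp_all
  obtain ⟨R, hRB, hRc⟩ := Finset.exists_subset_card_eq hB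
  obtain ⟨r, r', r'', h1, h2, h3, rfl⟩ := Finset.card_eq_three.mp hRc
  have hr : r ∈ B := hRB (by simp)
  have hr' : r' ∈ B := hRB (by simp)
  have hr'' : r'' ∈ B := hRB (by simp)
  refine ⟨{r, r', r''}, hRc.le, fun x => f s(x, r), f s(r'', r') - f s(r'', r) - f s(r, r'), ?_⟩
  intro x hx y hy hxy
  simp only [Finset.mem_sdiff, Finset.mem_insert, Finset.mem_singleton, not_or] at hx hy
  obtain ⟨hx, hx1, hx2, hx3⟩ := hx
  obtain ⟨hy, hy1, hy2, hy3⟩ := hy
  have e1 := h' x hx r hr y hy r' hr' hx1 hxy hx2 (Ne.symm hy1) h1 hy2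
  have e2 := h' x hx r'' hr'' r hr r' hr' hx3 hx1 hx2 (Ne.symm h2) (Ne.symm h3) h1
  have e3 : f s(r, y) = f s(y, r) := by rw [Sym2.eq_swap]
  rw [e3] at e1
  linear_combination e1 - e2

end Pool.Agent.ZSR
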